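import Mathlib

/-!
# Project TR (MP_120218_co): from `h`-fold product sets to products with arbitrary sets

By the Pluennecke-Ruzsa inequality `|S^h| ≤ (|SB|/|B|)^h |B|`, a set `S` of complex numbers with
`|S^h| ≥ c N^(h-1)` satisfies `|SB| ≥ c' (N|B|)^(1-1/h)` for every finite set `B` of nonzero
complex numbers.
-/

set_option autoImplicit false

open Finset

open scoped Pointwise

namespace Pool.Agent.Helper99.TR

theorem plue_units {G : Type*} [CommGroup G] [DecidableEq G] (S B : Finset G) (hB : B.Nonempty)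
    (h : ℕ) : ((S ^ h).card : ℝ) * (B.card : ℝ) ^ h ≤ ((B * S).card : ℝ) ^ h * B.card := by
  have h1 := pluennecke_ruzsa_inequality_pow_mul hB S h
  have h2 : ((S ^ h).card : ℝ) ≤ (((B * S).card : ℝ) / B.card) ^ h * B.card := by
    have h3 := (NNRat.cast_le (K := ℝ)).2 h1
    push_cast at h3
    exact h3
  have hpos : (0 : ℝ) < B.card := by exact_mod_cast hB.card_pos
  calc ((S ^ h).card : ℝ) * (B.card : ℝ) ^ h
      ≤ ((((B * S).card : ℝ) / B.card) ^ h * B.card) * (B.card : ℝ) ^ h :=
        mul_le_mul_of_nonneg_right h2 (by positivity)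
    _ = ((B * S).card : ℝ) ^ h * B.card := by
        rw [div_pow]
        field_simp

/-- the `h`-fold product set -/
noncomputable def hProd {F : Type*} [Field F] (h : ℕ) (S : Finset F) : Finset F := by
  classical
  exact (Fintype.piFinset (fun _ : Fin h => S)).image (fun f : Fin h → F => ∏ i, f i)

theorem mem_hProd {F : Type*} [Field F] (h : ℕ) (S : Finset F) (y : F) :
    y ∈ hProd h S ↔ ∃ f : Fin h → F, (∀ i, f i ∈ S) ∧ ∏ i, f i = y := by
  classical
  unfold hProd
  simp [Fintype.mem_piFinset]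

/-- the product set -/
noncomputable def prd {F : Type*} [Field F] (S B : Finset F) : Finset F := by
  classical
  exact image₂ (fun s b => s * b) S B

theorem mem_prd {F : Type*} [Field F] (S B : Finset F) (y : F) :
    y ∈ prd S B ↔ ∃ s ∈ S, ∃ b ∈ B, s * b = y := by
  classical
  unfold prd
  rw [Finset.mem_image₂]

theorem plue_field {F : Type*} [Field F] (S B : Finset F) (hS : (0 : F) ∉ S) (h0 : (0 : F) ∉ B)
    (hB : B.Nonempty) (h : ℕ) :
    ((hProd h S).card : ℝ) * (B.card : ℝ) ^ h ≤ ((prd S B).card : ℝ) ^ h * B.card := by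
  classical
  have hinj : Function.Injective (Units.val : Fˣ → F) := Units.val_injective
  set S' : Finset Fˣ := S.preimage Units.val hinj.injOn with hS'
  set B' : Finset Fˣ := B.preimage Units.val hinj.injOn with hB'
  have hBc : B'.card = B.card := by
    have h1 : B'.image Units.val = B := by
      ext y
      simp only [hB', Finset.mem_image, Finset.mem_preimage]
      constructor
      · rintro ⟨u, hu, rfl⟩
        exact hu
      · intro hy
        exact ⟨Units.mk0 y (fun h => h0 (h ▸ hy)), hy, rfl⟩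
    rw [← h1, Finset.card_image_of_injective _ hinj]
  have hB'ne : B'.Nonempty := by
    rw [← Finset.card_pos, hBc]
    exact hB.card_pos
  have h1 := plue_units S' B' hB'ne h
  have h2 : (hProd h S).card ≤ (S' ^ h).card := by
    have h3 : hProd h S ⊆ (S' ^ h).image Units.val := by
      intro y hy
      rw [mem_hProd] at hy
      obtain ⟨f, hf, rfl⟩ := hy
      rw [Finset.mem_image]
      have hne : ∀ i, f i ≠ 0 := fun i h => hS (h ▸ hf i)
      refine ⟨∏ i, Units.mk0 (f i) (hne i), ?_, ?_⟩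
      · rw [Finset.mem_pow]
        refine ⟨fun i => ⟨Units.mk0 (f i) (hne i), ?_⟩, ?_⟩
        · simp only [hS', Finset.mem_preimage]
          exact hf i
        · rw [List.prod_ofFn]
      · rw [Units.coe_prod]
        rfl
    calc (hProd h S).card ≤ ((S' ^ h).image Units.val).card := Finset.card_le_card h3
      _ ≤ (S' ^ h).card := Finset.card_image_le
  have h4 : (B' * S').card ≤ (prd S B).card := by
    have h5 : (B' * S').image Units.val ⊆ prd S B := by
      intro y hy
      rw [Finset.mem_image] at hy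
      obtain ⟨u, hu, rfl⟩ := hy
      rw [Finset.mem_mul] at hu
      obtain ⟨b, hb, s, hs, rfl⟩ := hu
      rw [mem_prd]
      simp only [hB', hS', Finset.mem_preimage] at hb hs
      exact ⟨s, hs, b, hb, by rw [Units.val_mul, mul_comm]⟩
    calc (B' * S').card = ((B' * S').image Units.val).card :=
          (Finset.card_image_of_injective _ hinj).symm
      _ ≤ _ := Finset.card_le_card h5
  rw [hBc] at h1
  calc ((hProd h S).card : ℝ) * (B.card : ℝ) ^ h ≤ ((S' ^ h).card : ℝ) * (B.card : ℝ) ^ h := by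
        gcongr
    _ ≤ ((B' * S').card : ℝ) ^ h * B.card := h1
    _ ≤ ((prd S B).card : ℝ) ^ h * B.card := by gcongr

theorem hProd_le_erase {F : Type*} [Field F] (h : ℕ) (S : Finset F)
    [DecidableEq F] (hne : (S.erase 0).Nonempty) :
    (hProd h S).card ≤ 2 * (hProd h (S.erase 0)).card := by
  have h1 : hProd h S ⊆ insert 0 (hProd h (S.erase 0)) := by
    intro y hy
    rw [mem_hProd] at hy
    obtain ⟨f, hf, rfl⟩ := hy
    by_cases h0 : ∃ i, f i = 0
    · obtain ⟨i, hi⟩ := h0
      rw [Finset.prod_eq_zero (Finset.mem_univ i) hi]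
      exact Finset.mem_insert_self _ _
    · push Not at h0
      refine Finset.mem_insert_of_mem ?_
      rw [mem_hProd]
      exact ⟨f, fun i => Finset.mem_erase.2 ⟨h0 i, hf i⟩, rfl⟩
  have h2 : (hProd h (S.erase 0)).Nonempty := by
    obtain ⟨s, hs⟩ := hne
    refine ⟨∏ _i : Fin h, s, ?_⟩
    rw [mem_hProd]
    exact ⟨fun _ => s, fun _ => hs, rfl⟩
  have h3 := Finset.card_le_card h1
  have h4 := Finset.card_insert_le 0 (hProd h (S.erase 0))
  have h5 := h2.card_pos
  omega

/-- a set with a large `h`-fold product set expands every finite set of nonzero elements -/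
theorem expand_erase {F : Type*} [Field F] [DecidableEq F] (h : ℕ) (hh : 0 < h) (S : Finset F)
    (hne : ∃ s ∈ S, s ≠ 0)
    (c N ε : ℝ) (hc : 0 < c) (hN : 1 ≤ N) (hε : 1 / (h : ℝ) ≤ ε)
    (hS : c * N ^ ((h : ℝ) - 1) ≤ ((hProd h S).card : ℝ))
    (B : Finset F) (h0 : (0 : F) ∉ B) (hB : B.Nonempty) :
    (c / 2) ^ (1 / (h : ℝ)) * (N * B.card) ^ (1 - ε) ≤ (((prd S B).erase 0).card : ℝ) := by
  have hne' : (S.erase 0).Nonempty := by
    obtain ⟨s, hs, hs0⟩ := hne
    exact ⟨s, Finset.mem_erase.2 ⟨hs0, hs⟩⟩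
  have h1 : ((hProd h S).card : ℝ) ≤ 2 * ((hProd h (S.erase 0)).card : ℝ) := by
    exact_mod_cast hProd_le_erase h S hne'
  have h2 := plue_field (S.erase 0) B (Finset.notMem_erase 0 S) h0 hB h
  have h3 : ((prd (S.erase 0) B).card : ℝ) ≤ (((prd S B).erase 0).card : ℝ) := by
    have h4 : prd (S.erase 0) B ⊆ (prd S B).erase 0 := by
      intro y hy
      rw [mem_prd] at hy
      obtain ⟨s, hs, b, hb, rfl⟩ := hy
      rw [Finset.mem_erase, mem_prd]
      exact ⟨mul_ne_zero (Finset.ne_of_mem_erase hs) (fun h => h0 (h ▸ hb)),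
        s, Finset.mem_of_mem_erase hs, b, hb, rfl⟩
    exact_mod_cast Finset.card_le_card h4
  have hb1 : (1 : ℝ) ≤ B.card := by exact_mod_cast hB.card_pos
  have hb0 : (0 : ℝ) < B.card := by linarith
  have hN0 : (0 : ℝ) < N := by linarith
  have hh0 : (0 : ℝ) < h := by exact_mod_cast hh
  set X : ℝ := (((prd S B).erase 0).card : ℝ) with hX
  have hX0 : 0 ≤ X := by positivity
  -- (c/2) N^(h-1) |B|^(h-1) ≤ X^h
  have h5 : c / 2 * (N * B.card) ^ ((h : ℝ) - 1) ≤ X ^ h := by
    have h6 : c / 2 * N ^ ((h : ℝ) - 1) ≤ ((hProd h (S.erase 0)).card : ℝ) := by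
      linarith
    have h7 : (c / 2 * N ^ ((h : ℝ) - 1)) * (B.card : ℝ) ^ h ≤ X ^ h * B.card := by
      calc (c / 2 * N ^ ((h : ℝ) - 1)) * (B.card : ℝ) ^ h
          ≤ ((hProd h (S.erase 0)).card : ℝ) * (B.card : ℝ) ^ h :=
            mul_le_mul_of_nonneg_right h6 (by positivity)
        _ ≤ ((prd (S.erase 0) B).card : ℝ) ^ h * B.card := h2
        _ ≤ X ^ h * B.card := by gcongr
    have h8 : (B.card : ℝ) ^ h = (B.card : ℝ) ^ ((h : ℝ) - 1) * B.card := by
      rw [Real.rpow_sub_one hb0.ne', Real.rpow_natCast]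
      field_simp
    rw [h8] at h7
    have h9 : (c / 2 * N ^ ((h : ℝ) - 1) * (B.card : ℝ) ^ ((h : ℝ) - 1)) * B.card ≤
        X ^ h * B.card := by
      linarith
    have h10 := le_of_mul_le_mul_right h9 hb0
    rw [Real.mul_rpow hN0.le hb0.le]
    linarith
  have h6 : (c / 2 * (N * B.card) ^ ((h : ℝ) - 1)) ^ (1 / (h : ℝ)) ≤ X := by
    have h7 := Real.rpow_le_rpow (by positivity) h5 (by positivity : (0 : ℝ) ≤ 1 / (h : ℝ))
    rw [← Real.rpow_natCast, ← Real.rpow_mul hX0, mul_one_div_cancel hh0.ne', Real.rpow_one] at h7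
    exact h7
  rw [Real.mul_rpow (by positivity) (by positivity), ← Real.rpow_mul (by positivity)] at h6
  refine le_trans ?_ h6
  refine mul_le_mul_of_nonneg_left ?_ (by positivity)
  refine Real.rpow_le_rpow_of_exponent_le (by nlinarith) ?_
  have h7 : ((h : ℝ) - 1) * (1 / (h : ℝ)) = 1 - 1 / (h : ℝ) := by
    field_simp
  rw [h7]
  linarith

theorem expand {F : Type*} [Field F] (h : ℕ) (hh : 0 < h) (S : Finset F) (hne : ∃ s ∈ S, s ≠ 0)
    (c N ε : ℝ) (hc : 0 < c) (hN : 1 ≤ N) (hε : 1 / (h : ℝ) ≤ ε)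
    (hS : c * N ^ ((h : ℝ) - 1) ≤ ((hProd h S).card : ℝ))
    (B : Finset F) (h0 : (0 : F) ∉ B) (hB : B.Nonempty) :
    (c / 2) ^ (1 / (h : ℝ)) * (N * B.card) ^ (1 - ε) ≤ ((prd S B).card : ℝ) := by
  classical
  refine (expand_erase h hh S hne c N ε hc hN hε hS B h0 hB).trans ?_
  exact_mod_cast Finset.card_le_card (Finset.erase_subset _ _)

end Pool.Agent.Helper99.TR
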