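import Pool.Agent.Helper99.TR.ZerC

/-!
# Project TR (MP_120218_co): products of several polynomial values; sets with many polynomial maps
-/

set_option autoImplicit false

open Finset Polynomial

namespace Pool.Agent.Helper99.TR

open Pool.Agent.Helper26.TR Pool.Agent.Helper88.NZ

/-- the products `F₁(a₁) ⋯ F_k(a_k) b`, `a_i ∈ A`, `b ∈ B` -/
noncomputable def polyProd {k : ℕ} (F : Fin k → ℤ[X]) (A : Finset ℤ) (B : Finset ℂ) :
    Finset ℂ := by
  classical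
  exact ((Fintype.piFinset fun _ : Fin k => A) ×ˢ B).image
    (fun p => (∏ i, (((F i).eval (p.1 i) : ℤ) : ℂ)) * p.2)

theorem mem_polyProd {k : ℕ} (F : Fin k → ℤ[X]) (A : Finset ℤ) (B : Finset ℂ) (y : ℂ) :
    y ∈ polyProd F A B ↔ ∃ a : Fin k → ℤ, (∀ i, a i ∈ A) ∧ ∃ b ∈ B,
      (∏ i, (((F i).eval (a i) : ℤ) : ℂ)) * b = y := by
  classical
  unfold polyProd
  rw [mem_image]
  constructor
  · rintro ⟨⟨a, b⟩, hp, rfl⟩
    rw [mem_product, Fintype.mem_piFinset] at hp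
    exact ⟨a, hp.1, b, hp.2, rfl⟩
  · rintro ⟨a, ha, b, hb, rfl⟩
    exact ⟨(a, b), by rw [mem_product, Fintype.mem_piFinset]; exact ⟨ha, hb⟩, rfl⟩

theorem valProd_sub {k : ℕ} (F : Fin (k + 1) → ℤ[X]) (A : Finset ℤ) (B T : Finset ℂ)
    (hT : T ⊆ polyProd (Fin.tail F) A B) : valProd (F 0) A T ⊆ polyProd F A B := by
  classical
  intro y hy
  unfold valProd at hy
  rw [mem_image₂] at hy
  obtain ⟨a, ha, t, ht, rfl⟩ := hy
  obtain ⟨a', ha', b, hb, rfl⟩ := (mem_polyProd _ _ _ _).1 (hT ht)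
  rw [mem_polyProd]
  refine ⟨Fin.cons a a', ?_, b, hb, ?_⟩
  · intro i
    refine Fin.cases ?_ (fun j => ?_) i
    · exact ha
    · exact ha' j
  · rw [Fin.prod_univ_succ]
    simp only [Fin.cons_zero, Fin.cons_succ]
    rw [mul_assoc]
    rfl

/-- iterating the expansion -/
theorem iter {A : Finset ℤ} (hA : A.Nonempty) {c δ : ℝ} (hc : 0 < c) (hc1 : c ≤ 1)
    (hδ : 0 ≤ δ) (Q : ℤ[X] → Prop)
    (hQ : ∀ F : ℤ[X], Q F → ∀ B : Finset ℂ, B.Nonempty → (0 : ℂ) ∉ B →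
      c * ((A.card : ℝ) * (B.card : ℝ)) ^ (1 - δ) ≤ (((valProd F A B).erase 0).card : ℝ))
    (hδ1 : δ ≤ 1) :
    ∀ (n : ℕ) (F : Fin n → ℤ[X]), (∀ i, Q (F i)) → ∀ B : Finset ℂ, B.Nonempty → (0 : ℂ) ∉ B →
      c ^ n * ((A.card : ℝ) ^ ((n : ℝ) - δ * (n : ℝ) ^ 2) * (B.card : ℝ) ^ (1 - (n : ℝ) * δ)) ≤
        (((polyProd F A B).erase 0).card : ℝ) := by
  classical
  intro n
  induction n with
  | zero =>
    intro F _ B hB h0
    have h1 : B ⊆ (polyProd F A B).erase 0 := by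
      intro b hb
      rw [mem_erase, mem_polyProd]
      exact ⟨fun h => h0 (h ▸ hb), Fin.elim0, fun i => i.elim0, b, hb, by simp⟩
    have h2 : (B.card : ℝ) ≤ (((polyProd F A B).erase 0).card : ℝ) := by
      exact_mod_cast card_le_card h1
    refine le_trans (le_of_eq ?_) h2
    simp
  | succ n ih =>
    intro F hF B hB h0
    have hN1 : (1 : ℝ) ≤ A.card := by exact_mod_cast card_pos.2 hA
    have hB1 : (1 : ℝ) ≤ B.card := by exact_mod_cast card_pos.2 hB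
    have hN0 : (0 : ℝ) < A.card := by linarith
    have hB0 : (0 : ℝ) < B.card := by linarith
    set T : Finset ℂ := (polyProd (Fin.tail F) A B).erase 0 with hT
    have h1 := ih (Fin.tail F) (fun i => hF i.succ) B hB h0
    rw [← hT] at h1
    have hTpos : (0 : ℝ) < T.card := by
      refine lt_of_lt_of_le ?_ h1
      positivity
    have hTne : T.Nonempty := by
      rw [← card_pos]
      exact_mod_cast hTpos
    have h2 := hQ (F 0) (hF 0) T hTne (notMem_erase _ _)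
    have h3 : (((valProd (F 0) A T).erase 0).card : ℝ) ≤
        (((polyProd F A B).erase 0).card : ℝ) := by
      exact_mod_cast card_le_card (erase_subset_erase _ (valProd_sub F A B T (erase_subset _ _)))
    refine le_trans ?_ (h2.trans h3)
    have h4 : (c ^ n * ((A.card : ℝ) ^ ((n : ℝ) - δ * (n : ℝ) ^ 2) *
        (B.card : ℝ) ^ (1 - (n : ℝ) * δ))) ^ (1 - δ) ≤ (T.card : ℝ) ^ (1 - δ) :=
      Real.rpow_le_rpow (by positivity) h1 (by linarith)
    rw [Real.mul_rpow hN0.le hTpos.le]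
    have h5 : c ^ n ≤ (c ^ n) ^ (1 - δ) := by
      calc c ^ n = (c ^ n) ^ (1 : ℝ) := (Real.rpow_one _).symm
        _ ≤ (c ^ n) ^ (1 - δ) := Real.rpow_le_rpow_of_exponent_ge (by positivity)
            (pow_le_one₀ hc.le hc1) (by linarith)
    have h6 : (c ^ n * ((A.card : ℝ) ^ ((n : ℝ) - δ * (n : ℝ) ^ 2) *
        (B.card : ℝ) ^ (1 - (n : ℝ) * δ))) ^ (1 - δ) =
        (c ^ n) ^ (1 - δ) * ((A.card : ℝ) ^ (((n : ℝ) - δ * (n : ℝ) ^ 2) * (1 - δ)) *
        (B.card : ℝ) ^ ((1 - (n : ℝ) * δ) * (1 - δ))) := by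
      rw [Real.mul_rpow (by positivity) (by positivity),
        Real.mul_rpow (by positivity) (by positivity), ← Real.rpow_mul hN0.le,
        ← Real.rpow_mul hB0.le]
    rw [h6] at h4
    have hn0 : (0 : ℝ) ≤ n := Nat.cast_nonneg n
    calc c ^ (n + 1) * ((A.card : ℝ) ^ (((n + 1 : ℕ) : ℝ) - δ * ((n + 1 : ℕ) : ℝ) ^ 2) *
          (B.card : ℝ) ^ (1 - ((n + 1 : ℕ) : ℝ) * δ))
        ≤ c * (c ^ n * (((A.card : ℝ) ^ (1 - δ) *
            (A.card : ℝ) ^ (((n : ℝ) - δ * (n : ℝ) ^ 2) * (1 - δ))) *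
            (B.card : ℝ) ^ ((1 - (n : ℝ) * δ) * (1 - δ)))) := by
          rw [pow_succ, mul_comm (c ^ n) c, mul_assoc]
          apply mul_le_mul_of_nonneg_left _ hc.le
          apply mul_le_mul_of_nonneg_left _ (by positivity)
          apply mul_le_mul _ _ (by positivity) (by positivity)
          · rw [← Real.rpow_add hN0]
            apply Real.rpow_le_rpow_of_exponent_le hN1
            push_cast
            nlinarith [mul_nonneg hδ hn0, mul_nonneg (mul_nonneg hδ hδ) (sq_nonneg (n : ℝ))]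
          · apply Real.rpow_le_rpow_of_exponent_le hB1
            push_cast
            nlinarith [mul_nonneg hδ hn0, mul_nonneg (mul_nonneg hδ hδ) hn0]
      _ ≤ c * ((A.card : ℝ) ^ (1 - δ) * ((c ^ n) ^ (1 - δ) *
            ((A.card : ℝ) ^ (((n : ℝ) - δ * (n : ℝ) ^ 2) * (1 - δ)) *
            (B.card : ℝ) ^ ((1 - (n : ℝ) * δ) * (1 - δ))))) := by
          apply mul_le_mul_of_nonneg_left _ hc.le
          have h7 : (A.card : ℝ) ^ (1 - δ) * ((c ^ n) ^ (1 - δ) *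
              ((A.card : ℝ) ^ (((n : ℝ) - δ * (n : ℝ) ^ 2) * (1 - δ)) *
              (B.card : ℝ) ^ ((1 - (n : ℝ) * δ) * (1 - δ)))) =
              (c ^ n) ^ (1 - δ) * (((A.card : ℝ) ^ (1 - δ) *
              (A.card : ℝ) ^ (((n : ℝ) - δ * (n : ℝ) ^ 2) * (1 - δ))) *
              (B.card : ℝ) ^ ((1 - (n : ℝ) * δ) * (1 - δ))) := by ring
          rw [h7]
          exact mul_le_mul_of_nonneg_right h5 (by positivity)
      _ ≤ c * ((A.card : ℝ) ^ (1 - δ) * (T.card : ℝ) ^ (1 - δ)) := by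
          apply mul_le_mul_of_nonneg_left _ hc.le
          exact mul_le_mul_of_nonneg_left h4 (by positivity)

/-- admissible polynomials -/
def Adm (d : ℕ) (X : ℝ) (F : ℤ[X]) : Prop :=
  1 ≤ F.natDegree ∧ F.natDegree ≤ d ∧ ∀ j, (|F.coeff j| : ℝ) ≤ X

theorem adm_mono {d n : ℕ} (hn : 1 ≤ n) {c c₀ : ℝ} (hc : 0 < c) (hcc : c ≤ c₀) {F : ℤ[X]}
    (hF : Adm d ((n : ℝ) ^ (c * Real.log (Real.log n))) F) :
    Adm d ((n : ℝ) ^ (c₀ * Real.log (Real.log n))) F := by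
  obtain ⟨h1, h2, h3⟩ := hF
  refine ⟨h1, h2, fun j => (h3 j).trans ?_⟩
  have hn1 : (1 : ℝ) ≤ n := by exact_mod_cast hn
  rcases le_or_gt 0 (Real.log (Real.log n)) with h | h
  · exact Real.rpow_le_rpow_of_exponent_le hn1 (mul_le_mul_of_nonneg_right hcc h)
  · exfalso
    have hn2 : 1 < (n : ℝ) := by
      rcases eq_or_lt_of_le hn1 with h4 | h4
      · rw [← h4] at h
        simp at h
      · exact h4
    have h5 : (n : ℝ) ^ (c * Real.log (Real.log n)) < 1 :=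
      Real.rpow_lt_one_of_one_lt_of_neg hn2 (mul_neg_of_pos_of_neg hc h)
    have h6 : F.leadingCoeff = 0 := by
      have h7 := (h3 F.natDegree).trans_lt h5
      have h8 : |F.coeff F.natDegree| < 1 := by exact_mod_cast h7
      exact Int.abs_lt_one_iff.1 h8
    rw [leadingCoeff_eq_zero] at h6
    rw [h6, natDegree_zero] at h1
    omega

/-- the final theorem, first part -/
theorem exceptional_zeros (hT : TRZ) (k d : ℕ) (ε : ℝ) (hε : 0 < ε) :
    ∃ (m : ℕ) (c : ℝ), 0 < c ∧ ∀ A : Finset ℤ, A.Nonempty → ∃ Z : Finset ℂ, Z.card ≤ m ∧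
      ∀ F : Fin k → ℤ[X],
        (∀ i, Adm d ((A.card : ℝ) ^ (c * Real.log (Real.log A.card))) (F i)) →
        (∀ i, ∀ z ∈ Z, aeval z (F i) ≠ 0) →
        ∀ B : Finset ℂ, B.Nonempty → (0 : ℂ) ∉ B →
          c * ((A.card : ℝ) ^ ((k : ℝ) - ε) * (B.card : ℝ) ^ (1 - ε)) ≤
            (((polyProd F A B).erase 0).card : ℝ) := by
  set ε₁ : ℝ := min ε 1 with hε₁
  have hε₁0 : 0 < ε₁ := lt_min hε one_pos
  have hε₁1 : ε₁ ≤ 1 := min_le_right _ _
  have hε₁ε : ε₁ ≤ ε := min_le_left _ _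
  set δ : ℝ := ε₁ / ((k : ℝ) + 1) ^ 2 with hδ
  have hk0 : (0 : ℝ) ≤ k := Nat.cast_nonneg k
  have hk1 : (1 : ℝ) ≤ ((k : ℝ) + 1) ^ 2 := by nlinarith
  have hδ0 : 0 < δ := by positivity
  have hδε : δ * ((k : ℝ) + 1) ^ 2 = ε₁ := by
    rw [hδ]
    field_simp
  have hδ1 : δ ≤ 1 := by
    have : δ * 1 ≤ δ * ((k : ℝ) + 1) ^ 2 := mul_le_mul_of_nonneg_left hk1 hδ0.le
    linarith
  obtain ⟨m, c₀, hc₀, hm⟩ := hT δ d hδ0
  set c₁ : ℝ := min c₀ 1 with hc₁
  have hc₁0 : 0 < c₁ := lt_min hc₀ one_pos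
  have hc₁1 : c₁ ≤ 1 := min_le_right _ _
  have hc₁c₀ : c₁ ≤ c₀ := min_le_left _ _
  have hck0 : 0 < c₁ ^ k := by positivity
  have hcc : min c₁ (c₁ ^ k) ≤ c₀ := (min_le_left _ _).trans hc₁c₀
  have hcpos : 0 < min c₁ (c₁ ^ k) := lt_min hc₁0 hck0
  refine ⟨m, min c₁ (c₁ ^ k), hcpos, ?_⟩
  intro A hA
  obtain ⟨Z, hZ, hF⟩ := hm A hA
  refine ⟨Z, hZ, ?_⟩
  intro F hFa hFz B hB h0
  have hAc : 1 ≤ A.card := hA.card_pos
  have h1 := iter hA hc₁0 hc₁1 hδ0.le
    (fun G => Adm d ((A.card : ℝ) ^ (c₀ * Real.log (Real.log A.card))) G ∧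
      ∀ z ∈ Z, aeval z G ≠ 0)
    (fun G hG B' hB' h0' => by
      refine le_trans ?_ (hF G hG.1.1 hG.1.2.1 hG.1.2.2 hG.2 B' hB' h0')
      exact mul_le_mul_of_nonneg_right hc₁c₀ (by positivity)) hδ1 k F
    (fun i => ⟨adm_mono hAc hcpos hcc (hFa i), hFz i⟩) B hB h0
  refine le_trans ?_ h1
  have hN1 : (1 : ℝ) ≤ A.card := by exact_mod_cast hAc
  have hB1 : (1 : ℝ) ≤ B.card := by exact_mod_cast hB.card_pos
  apply mul_le_mul (min_le_right _ _) _ (by positivity) hck0.le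
  apply mul_le_mul _ _ (by positivity) (by positivity)
  · apply Real.rpow_le_rpow_of_exponent_le hN1
    have : δ * (k : ℝ) ^ 2 ≤ δ * ((k : ℝ) + 1) ^ 2 :=
      mul_le_mul_of_nonneg_left (by nlinarith) hδ0.le
    linarith
  · apply Real.rpow_le_rpow_of_exponent_le hB1
    have : δ * (k : ℝ) ≤ δ * ((k : ℝ) + 1) ^ 2 :=
      mul_le_mul_of_nonneg_left (by nlinarith) hδ0.le
    linarith

/-- Q1 for the sets containing the images of a set `B` of comparable size under `m + 1`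
polynomials without common zeros -/
theorem many_maps {k d m : ℕ} {ε c : ℝ} (hk : 1 ≤ k) (hε : 0 < ε) (hc : 0 < c) (hc1 : c ≤ 1)
    (h : ∀ A : Finset ℤ, A.Nonempty → ∃ Z : Finset ℂ, Z.card ≤ m ∧
      ∀ F : Fin k → ℤ[X],
        (∀ i, Adm d ((A.card : ℝ) ^ (c * Real.log (Real.log A.card))) (F i)) →
        (∀ i, ∀ z ∈ Z, aeval z (F i) ≠ 0) →
        ∀ B : Finset ℂ, B.Nonempty → (0 : ℂ) ∉ B →
          c * ((A.card : ℝ) ^ ((k : ℝ) - ε / 2) * (B.card : ℝ) ^ (1 - ε / 2)) ≤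
            (((polyProd F A B).erase 0).card : ℝ))
    (B A : Finset ℤ) (hB : B.Nonempty) (F : Fin (m + 1) → ℤ[X])
    (hF : ∀ i, Adm d ((B.card : ℝ) ^ (c * Real.log (Real.log B.card))) (F i))
    (hFF : ∀ i j, i ≠ j → ∀ z : ℂ, ¬ (aeval z (F i) = 0 ∧ aeval z (F j) = 0))
    (hFA : ∀ i, ∀ b ∈ B, (F i).eval b ∈ A)
    (hAB : (A.card : ℝ) ≤ (B.card : ℝ) ^ (1 + ε / (2 * k))) :
    c * (A.card : ℝ) ^ ((k : ℝ) - ε) ≤ ((prodSet k A).card : ℝ) := by
  classical
  have hAne : A.Nonempty := by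
    obtain ⟨b, hb⟩ := hB
    exact ⟨_, hFA 0 b hb⟩
  have hA1 : (1 : ℝ) ≤ A.card := by exact_mod_cast hAne.card_pos
  rcases lt_or_ge ((k : ℝ) - ε) 0 with hkε | hkε
  · have h1 : (A.card : ℝ) ^ ((k : ℝ) - ε) ≤ 1 :=
      Real.rpow_le_one_of_one_le_of_nonpos hA1 hkε.le
    have h2 : (1 : ℝ) ≤ ((prodSet k A).card : ℝ) := by
      obtain ⟨a, ha⟩ := hAne
      have h3 : (prodSet k A).Nonempty := by
        refine ⟨∏ _i : Fin k, a, ?_⟩
        unfold prodSet
        exact mem_image_of_mem _ (by rw [Fintype.mem_piFinset]; exact fun _ => ha)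
      exact_mod_cast h3.card_pos
    calc c * (A.card : ℝ) ^ ((k : ℝ) - ε) ≤ 1 * 1 :=
          mul_le_mul hc1 h1 (by positivity) one_pos.le
      _ ≤ _ := by linarith
  obtain ⟨Z, hZ, hZF⟩ := h B hB
  -- one of the polynomials has no zero in `Z`
  obtain ⟨i, hi⟩ : ∃ i, ∀ z ∈ Z, aeval z (F i) ≠ 0 := by
    by_contra hcon
    push Not at hcon
    choose z hz hz0 using hcon
    have hinj : Function.Injective z := by
      intro i j hij
      by_contra hne
      exact hFF i j hne (z i) ⟨hz0 i, by rw [hij]; exact hz0 j⟩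
    have h1 : (univ.image z).card = m + 1 := by
      rw [card_image_of_injective _ hinj, card_univ, Fintype.card_fin]
    have h2 : univ.image z ⊆ Z := by
      intro w hw
      obtain ⟨i, -, rfl⟩ := mem_image.1 hw
      exact hz i
    have h3 := card_le_card h2
    omega
  have h1 := hZF (fun _ => F i) (fun _ => hF i) (fun _ => hi) {1} (singleton_nonempty _)
    (by simp)
  have h2 : (((polyProd (fun _ : Fin k => F i) B {1}).erase 0).card : ℝ) ≤
      ((prodSet k A).card : ℝ) := by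
    have hinj : Function.Injective (fun n : ℤ => (n : ℂ)) := Int.cast_injective
    have h3 : (polyProd (fun _ : Fin k => F i) B {1}).erase 0 ⊆
        (prodSet k A).image (fun n : ℤ => (n : ℂ)) := by
      intro y hy
      obtain ⟨a, ha, b, hb, rfl⟩ := (mem_polyProd _ _ _ _).1 (mem_of_mem_erase hy)
      rw [mem_singleton] at hb
      rw [mem_image]
      refine ⟨∏ j, (F i).eval (a j), ?_, ?_⟩
      · unfold prodSet
        rw [mem_image]
        exact ⟨fun j => (F i).eval (a j), by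
          rw [Fintype.mem_piFinset]
          exact fun j => hFA i _ (ha j), rfl⟩
      · rw [hb, mul_one]
        push_cast
        rfl
    have h4 := card_le_card h3
    rw [card_image_of_injective _ hinj] at h4
    exact_mod_cast h4
  refine le_trans ?_ (h1.trans h2)
  rw [card_singleton, Nat.cast_one, Real.one_rpow, mul_one]
  apply mul_le_mul_of_nonneg_left _ hc.le
  have hB1 : (1 : ℝ) ≤ B.card := by exact_mod_cast hB.card_pos
  have hk1 : (1 : ℝ) ≤ k := by exact_mod_cast hk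
  calc (A.card : ℝ) ^ ((k : ℝ) - ε)
      ≤ ((B.card : ℝ) ^ (1 + ε / (2 * k))) ^ ((k : ℝ) - ε) :=
        Real.rpow_le_rpow (by linarith) hAB hkε
    _ = (B.card : ℝ) ^ ((1 + ε / (2 * k)) * ((k : ℝ) - ε)) := by
        rw [← Real.rpow_mul (by linarith)]
    _ ≤ (B.card : ℝ) ^ ((k : ℝ) - ε / 2) := by
        apply Real.rpow_le_rpow_of_exponent_le hB1
        have h5 : ε / (2 * k) * ((k : ℝ) - ε) ≤ ε / 2 := by
          rw [div_mul_eq_mul_div, div_le_iff₀ (by linarith)]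
          nlinarith
        linarith

/-- both parts together -/
theorem final (hT : TRZ) (k d : ℕ) (hk : 1 ≤ k) (ε : ℝ) (hε : 0 < ε) :
    ∃ (m : ℕ) (c : ℝ), 0 < c ∧
      (∀ A : Finset ℤ, A.Nonempty → ∃ Z : Finset ℂ, Z.card ≤ m ∧
        ∀ F : Fin k → ℤ[X],
          (∀ i, Adm d ((A.card : ℝ) ^ (c * Real.log (Real.log A.card))) (F i)) →
          (∀ i, ∀ z ∈ Z, aeval z (F i) ≠ 0) →
          ∀ B : Finset ℂ, B.Nonempty → (0 : ℂ) ∉ B →
            c * (A.card : ℝ) ^ ((k : ℝ) - ε) * (B.card : ℝ) ^ (1 - ε) ≤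
              ((polyProd F A B).card : ℝ)) ∧
      ∀ (B A : Finset ℤ), B.Nonempty → ∀ F : Fin (m + 1) → ℤ[X],
        (∀ i, Adm d ((B.card : ℝ) ^ (c * Real.log (Real.log B.card))) (F i)) →
        (∀ i j, i ≠ j → ∀ z : ℂ, ¬ (aeval z (F i) = 0 ∧ aeval z (F j) = 0)) →
        (∀ i, ∀ b ∈ B, (F i).eval b ∈ A) →
        (A.card : ℝ) ≤ (B.card : ℝ) ^ (1 + c) →
        c * (A.card : ℝ) ^ ((k : ℝ) - ε) ≤ ((prodSet k A).card : ℝ) := by
  obtain ⟨m, c₀, hc₀, hm⟩ := exceptional_zeros hT k d (ε / 2) (by positivity)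
  have hk1 : (1 : ℝ) ≤ k := by exact_mod_cast hk
  set c : ℝ := min (min c₀ 1) (ε / (2 * k)) with hc
  have hek : 0 < ε / (2 * k) := by positivity
  have hc0 : 0 < c := lt_min (lt_min hc₀ one_pos) hek
  have hcc₀ : c ≤ c₀ := (min_le_left _ _).trans (min_le_left _ _)
  have hc1 : c ≤ 1 := (min_le_left _ _).trans (min_le_right _ _)
  have hce : c ≤ ε / (2 * k) := min_le_right _ _
  have key : ∀ A : Finset ℤ, A.Nonempty → ∃ Z : Finset ℂ, Z.card ≤ m ∧
      ∀ F : Fin k → ℤ[X],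
        (∀ i, Adm d ((A.card : ℝ) ^ (c * Real.log (Real.log A.card))) (F i)) →
        (∀ i, ∀ z ∈ Z, aeval z (F i) ≠ 0) →
        ∀ B : Finset ℂ, B.Nonempty → (0 : ℂ) ∉ B →
          c * ((A.card : ℝ) ^ ((k : ℝ) - ε / 2) * (B.card : ℝ) ^ (1 - ε / 2)) ≤
            (((polyProd F A B).erase 0).card : ℝ) := by
    intro A hA
    obtain ⟨Z, hZ, h⟩ := hm A hA
    refine ⟨Z, hZ, fun F hF hFz B hB h0 => ?_⟩
    refine le_trans ?_ (h F (fun i => adm_mono hA.card_pos hc0 hcc₀ (hF i)) hFz B hB h0)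
    exact mul_le_mul_of_nonneg_right hcc₀ (by positivity)
  refine ⟨m, c, hc0, ?_, ?_⟩
  · intro A hA
    obtain ⟨Z, hZ, h⟩ := key A hA
    refine ⟨Z, hZ, fun F hF hFz B hB h0 => ?_⟩
    have hN1 : (1 : ℝ) ≤ A.card := by exact_mod_cast hA.card_pos
    have hB1 : (1 : ℝ) ≤ B.card := by exact_mod_cast hB.card_pos
    have h1 := h F hF hFz B hB h0
    have h2 : (((polyProd F A B).erase 0).card : ℝ) ≤ ((polyProd F A B).card : ℝ) := by
      exact_mod_cast card_le_card (erase_subset _ _)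
    refine le_trans ?_ (h1.trans h2)
    rw [mul_assoc]
    apply mul_le_mul_of_nonneg_left _ hc0.le
    apply mul_le_mul _ _ (by positivity) (by positivity)
    · exact Real.rpow_le_rpow_of_exponent_le hN1 (by linarith)
    · exact Real.rpow_le_rpow_of_exponent_le hB1 (by linarith)
  · intro B A hB F hF hFF hFA hAB
    refine many_maps hk hε hc0 hc1 key B A hB F hF hFF hFA (hAB.trans ?_)
    have hB1 : (1 : ℝ) ≤ B.card := by exact_mod_cast hB.card_pos
    exact Real.rpow_le_rpow_of_exponent_le hB1 (by linarith)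

end Pool.Agent.Helper99.TR
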