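import Pool.Agent.Helper99.TR.ZerD
import Pool.Agent.Helper34.TR.MixT

set_option autoImplicit false

namespace Pool.Agent.Helper99.TR.Result

open Finset Polynomial

/-- **All but boundedly many translates (and polynomial images) of a set of integers are
multiplicatively generic.**

For all `k ≥ 1`, `d` and `ε > 0` there are `m` and `c > 0` such that
(1) for every finite non-empty set `A` of integers there is a set `Z` of at most `m` complex numbers
with `|{F₁(a₁) ⋯ F_k(a_k) b : a_i ∈ A, b ∈ B}| ≥ c |A|^(k-ε) |B|^(1-ε)` for all non-constant integer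
polynomials `F₁, …, F_k` of degree at most `d` which have coefficients of absolute value at most
`|A| ^ (c log log |A|)` and no zero in `Z`, and for all finite non-empty sets `B` of non-zero
complex numbers;
(2) if `B` and `A` are finite sets of integers, `B` is non-empty, `|A| ≤ |B|^(1+c)`, and
`F₀, …, F_m` are non-constant integer polynomials of degree at most `d`, with coefficients of
absolute value at most `|B| ^ (c log log |B|)`, no two of which have a common complex zero, and which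
map `B` into `A`, then `|A^k| ≥ c |A|^(k-ε)`. -/
theorem result :
    ∀ k d : ℕ, 1 ≤ k → ∀ ε : ℝ, 0 < ε → ∃ (m : ℕ) (c : ℝ), 0 < c ∧
      (∀ A : Finset ℤ, A.Nonempty → ∃ Z : Finset ℂ, Z.card ≤ m ∧
        ∀ F : Fin k → ℤ[X],
          (∀ i, 1 ≤ (F i).natDegree ∧ (F i).natDegree ≤ d ∧
            (∀ j, |((F i).coeff j : ℝ)| ≤ (A.card : ℝ) ^ (c * Real.log (Real.log A.card))) ∧
            ∀ z ∈ Z, aeval z (F i) ≠ 0) →
          ∀ B : Finset ℂ, B.Nonempty → (0 : ℂ) ∉ B →
            c * (A.card : ℝ) ^ ((k : ℝ) - ε) * (B.card : ℝ) ^ (1 - ε) ≤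
              (({y : ℂ | ∃ a : Fin k → ℤ, (∀ i, a i ∈ A) ∧ ∃ b ∈ B,
                y = (∏ i, (((F i).eval (a i) : ℤ) : ℂ)) * b}.ncard : ℕ) : ℝ)) ∧
      ∀ B A : Finset ℤ, B.Nonempty → (A.card : ℝ) ≤ (B.card : ℝ) ^ (1 + c) →
        ∀ F : Fin (m + 1) → ℤ[X],
          (∀ i, 1 ≤ (F i).natDegree ∧ (F i).natDegree ≤ d ∧
            (∀ j, |((F i).coeff j : ℝ)| ≤ (B.card : ℝ) ^ (c * Real.log (Real.log B.card))) ∧
            ∀ b ∈ B, (F i).eval b ∈ A) →
          (∀ i j, i ≠ j → ∀ z : ℂ, ¬ (aeval z (F i) = 0 ∧ aeval z (F j) = 0)) →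
          c * (A.card : ℝ) ^ ((k : ℝ) - ε) ≤
            (((Fintype.piFinset (fun _ : Fin k => A)).image
              (fun f : Fin k → ℤ => ∏ i, f i)).card : ℝ) := by
  intro k d hk ε hε
  obtain ⟨m, c, hc, h1, h2⟩ :=
    Pool.Agent.Helper99.TR.final (Pool.Agent.Helper99.TR.trz Pool.Agent.Helper34.TR.nzMixT)
      k d hk ε hε
  refine ⟨m, c, hc, ?_, ?_⟩
  · intro A hA
    obtain ⟨Z, hZ, h⟩ := h1 A hA
    refine ⟨Z, hZ, fun F hF B hB h0 => ?_⟩
    have h3 := h F (fun i => ⟨(hF i).1, (hF i).2.1, (hF i).2.2.1⟩) (fun i => (hF i).2.2.2) B hB h0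
    have h4 : {y : ℂ | ∃ a : Fin k → ℤ, (∀ i, a i ∈ A) ∧ ∃ b ∈ B,
        y = (∏ i, (((F i).eval (a i) : ℤ) : ℂ)) * b} =
        (Pool.Agent.Helper99.TR.polyProd F A B : Set ℂ) := by
      ext y
      constructor
      · rintro ⟨a, ha, b, hb, rfl⟩
        exact mem_coe.2 ((Pool.Agent.Helper99.TR.mem_polyProd _ _ _ _).2 ⟨a, ha, b, hb, rfl⟩)
      · intro hy
        obtain ⟨a, ha, b, hb, hy2⟩ :=
          (Pool.Agent.Helper99.TR.mem_polyProd _ _ _ _).1 (mem_coe.1 hy)
        exact ⟨a, ha, b, hb, hy2.symm⟩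
    rw [h4, Set.ncard_coe_finset]
    exact h3
  · intro B A hB hAB F hF hFF
    exact h2 B A hB F (fun i => ⟨(hF i).1, (hF i).2.1, (hF i).2.2.1⟩) hFF
      (fun i => (hF i).2.2.2) hAB

end Pool.Agent.Helper99.TR.Result
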