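import Pool.Agent.Helper84.TR.CE
import Pool.Agent.Helper34.TR.Pf

/-!
# Project TR (MP_120218_co): Shearer's inequality for the parts of integers free of given primes
-/

set_option autoImplicit false

open Finset

namespace Pool.Agent.Helper99.TR

open Pool.Agent.Helper15.BP
open Pool.Agent.Helper84.TR
open Pool.Agent.Helper34.TR (pf sign_pf val_pf)

variable {Ω : Type*} [Fintype Ω]

/-- the columns `q < n`, `q ∈ S` of `X o` -/
noncomputable def tup (S : Set ℕ) (n : ℕ) (X : Ω → ℕ → ℤ) (o : Ω) : ℕ → ℤ := by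
  classical exact fun q => if q < n ∧ q ∈ S then X o q else 0

omit [Fintype Ω] in
theorem tup_eq_iff (S : Set ℕ) (n : ℕ) (X : Ω → ℕ → ℤ) (o o' : Ω) :
    tup S n X o = tup S n X o' ↔ ∀ q < n, q ∈ S → X o q = X o' q := by
  classical
  unfold tup
  constructor
  · intro h q hq hS
    have h1 := congrFun h q
    simpa [hq, hS] using h1
  · intro h
    funext q
    by_cases hq : q < n ∧ q ∈ S
    · simp only [hq.1, hq.2, and_self, if_true]
      exact h q hq.1 hq.2
    · simp only [hq, if_false]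

theorem Ent_tup_zero {w : Ω → ℝ} (hw : IsPr w) (S : Set ℕ) (X : Ω → ℕ → ℤ) :
    Ent w (tup S 0 X) = 0 := by
  rw [← Ent_const hw (0 : ℕ)]
  refine Ent_congr fun o o' => ?_
  rw [tup_eq_iff]
  simp

theorem Ent_tup_succ_mem {w : Ω → ℝ} (S : Set ℕ) (X : Ω → ℕ → ℤ) (n : ℕ)
    (hn : n ∈ S) : Ent w (tup S (n + 1) X) =
      Ent w (tup S n X) + CE w (fun o => X o n) (tup S n X) := by
  unfold CE
  have h : Ent w (tup S (n + 1) X) = Ent w (fun o => (X o n, tup S n X o)) := by
    refine Ent_congr fun o o' => ?_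
    rw [tup_eq_iff, Prod.mk.injEq, tup_eq_iff]
    constructor
    · intro h
      exact ⟨h n (by omega) hn, fun q hq hS => h q (by omega) hS⟩
    · rintro ⟨h1, h2⟩ q hq hS
      rcases Nat.lt_succ_iff_lt_or_eq.1 hq with h3 | h3
      · exact h2 q h3 hS
      · rw [h3]; exact h1
  rw [h]
  ring

theorem Ent_tup_succ_notMem {w : Ω → ℝ} (S : Set ℕ) (X : Ω → ℕ → ℤ) (n : ℕ)
    (hn : n ∉ S) : Ent w (tup S (n + 1) X) = Ent w (tup S n X) := by
  refine Ent_congr fun o o' => ?_
  rw [tup_eq_iff, tup_eq_iff]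
  constructor
  · intro h q hq hS
    exact h q (by omega) hS
  · intro h q hq hS
    rcases Nat.lt_succ_iff_lt_or_eq.1 hq with h3 | h3
    · exact h q h3 hS
    · exact absurd (h3 ▸ hS) hn

/-- the price of the column `n` given all columns before -/
noncomputable def price (w : Ω → ℝ) (X : Ω → ℕ → ℤ) (n : ℕ) : ℝ :=
  CE w (fun o => X o n) (tup Set.univ n X)

theorem price_nonneg {w : Ω → ℝ} (hw : IsPr w) (X : Ω → ℕ → ℤ) (n : ℕ) : 0 ≤ price w X n :=
  CE_nonneg hw _ _

theorem Ent_tup_univ {w : Ω → ℝ} (hw : IsPr w) (X : Ω → ℕ → ℤ) (n : ℕ) :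
    Ent w (tup Set.univ n X) = ∑ q ∈ range n, price w X q := by
  induction n with
  | zero => rw [Ent_tup_zero hw]; simp
  | succ n ih =>
    rw [Ent_tup_succ_mem _ _ _ (Set.mem_univ n), ih, Finset.sum_range_succ]
    rfl

theorem Ent_tup_ge {w : Ω → ℝ} (hw : IsPr w) (S : Set ℕ) (X : Ω → ℕ → ℤ) (n : ℕ) :
    ∑ q ∈ range n, S.indicator (price w X) q ≤ Ent w (tup S n X) := by
  induction n with
  | zero => rw [Ent_tup_zero hw]; simp
  | succ n ih =>
    rw [Finset.sum_range_succ]
    by_cases hn : n ∈ S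
    · rw [Set.indicator_of_mem hn, Ent_tup_succ_mem _ _ _ hn]
      have h1 : price w X n ≤ CE w (fun o => X o n) (tup S n X) := by
        unfold price
        refine CE_anti hw _ fun o o' h => ?_
        rw [tup_eq_iff] at h ⊢
        exact fun q hq _ => h q hq (Set.mem_univ q)
      linarith
    · rw [Set.indicator_of_notMem hn, Ent_tup_succ_notMem _ _ _ hn]
      linarith

/-- Shearer's inequality for entropies -/
theorem shearer_ent {w : Ω → ℝ} (hw : IsPr w) (X : Ω → ℕ → ℤ) (n m t : ℕ)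
    (P : Fin m → Set ℕ)
    (hP : ∀ q < n, {j : Fin m | q ∈ P j}.ncard ≤ t) :
    (m : ℝ) * Ent w (tup Set.univ n X) ≤ t * Ent w (tup Set.univ n X) +
      ∑ j, Ent w (tup (P j)ᶜ n X) := by
  classical
  have h1 : ∑ j, ∑ q ∈ range n, (P j)ᶜ.indicator (price w X) q ≤
      ∑ j, Ent w (tup (P j)ᶜ n X) :=
    Finset.sum_le_sum fun j _ => Ent_tup_ge hw _ _ _
  rw [Finset.sum_comm] at h1
  rw [Ent_tup_univ hw]
  have h2 : ∀ q ∈ range n, ((m : ℝ) - t) * price w X q ≤
      ∑ j : Fin m, (P j)ᶜ.indicator (price w X) q := by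
    intro q hq
    have h3 : {j : Fin m | q ∈ P j}.ncard = (univ.filter (fun j : Fin m => q ∈ P j)).card := by
      rw [← Set.ncard_coe_finset]
      congr 1
      ext j
      simp
    have h4 := hP q (Finset.mem_range.1 hq)
    rw [h3] at h4
    have h5 : (univ.filter (fun j : Fin m => q ∈ P j)).card +
        (univ.filter (fun j : Fin m => ¬ (q ∈ P j))).card = m := by
      rw [Finset.card_filter_add_card_filter_not]
      simp
    have h6 : ∑ j : Fin m, (P j)ᶜ.indicator (price w X) q =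
        ∑ j : Fin m, if ¬ (q ∈ P j) then price w X q else 0 := by
      refine Finset.sum_congr rfl fun j _ => ?_
      by_cases hj : q ∈ P j
      · rw [Set.indicator_of_notMem (by simpa using hj), if_neg (by simpa using hj)]
      · rw [Set.indicator_of_mem (by simpa using hj), if_pos hj]
    rw [h6, ← Finset.sum_filter, Finset.sum_const, nsmul_eq_mul]
    refine mul_le_mul_of_nonneg_right ?_ (price_nonneg hw X q)
    have h7 : ((univ.filter (fun j : Fin m => q ∈ P j)).card : ℝ) +
        ((univ.filter (fun j : Fin m => ¬ (q ∈ P j))).card : ℝ) = m := by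
      exact_mod_cast h5
    have h8 : ((univ.filter (fun j : Fin m => q ∈ P j)).card : ℝ) ≤ t := by
      exact_mod_cast h4
    linarith
  have h3 := Finset.sum_le_sum h2
  rw [← Finset.mul_sum] at h3
  nlinarith

/-- entropy is at most the logarithm of the number of values -/
theorem Ent_le_log {α : Type*} [DecidableEq α] {w : Ω → ℝ} (hw : IsPr w) (f : Ω → α) :
    Ent w f ≤ Real.log ((univ : Finset Ω).image f).card := by
  have h := Ent_le_add_log hw f (fun _ => ()) ((univ : Finset Ω).image f).card (fun o => by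
    rw [← Set.ncard_coe_finset]
    refine Set.ncard_le_ncard ?_ (Set.toFinite _)
    rintro a ⟨o', -, rfl⟩
    simp)
  rw [Ent_const hw] at h
  rw [Ent_congr (f := f) (g := fun o => (f o, ())) (fun o o' => by simp)]
  linarith

/-- the uniform weights -/
noncomputable def unif (α : Type*) [Fintype α] : α → ℝ := fun _ => 1 / (Fintype.card α : ℝ)

theorem isPr_unif (α : Type*) [Fintype α] [Nonempty α] : IsPr (unif α) := by
  refine ⟨fun o => by unfold unif; positivity, ?_⟩
  have h : (Fintype.card α : ℝ) ≠ 0 := by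
    have := Fintype.card_pos (α := α)
    positivity
  simp only [unif, Finset.sum_const, nsmul_eq_mul, Finset.card_univ]
  field_simp

/-- the entropy of an injective function -/
theorem Ent_unif_inj {α β : Type*} [Fintype α] [Nonempty α] (f : α → β)
    (hf : Function.Injective f) : Ent (unif α) f = Real.log (Fintype.card α) := by
  classical
  have h1 : ∀ o : α, pr (unif α) f (f o) = 1 / (Fintype.card α : ℝ) := by
    intro o
    unfold pr unif
    have h2 : ∀ x : α, (if f x = f o then 1 / (Fintype.card α : ℝ) else 0) =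
        if x = o then 1 / (Fintype.card α : ℝ) else 0 := by
      intro x
      by_cases hx : x = o
      · simp [hx]
      · rw [if_neg hx, if_neg (fun h => hx (hf h))]
    rw [Finset.sum_congr rfl fun x _ => h2 x]
    simp
  have h3 : (Fintype.card α : ℝ) ≠ 0 := by
    have := Fintype.card_pos (α := α)
    positivity
  unfold Ent
  rw [Finset.sum_congr rfl fun o _ => by rw [h1 o]]
  rw [← Finset.sum_mul, (isPr_unif α).sum_one, one_mul, one_div, Real.log_inv, neg_neg]

/-- Shearer's inequality for finite sets with integer coordinates -/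
theorem shearer_set {α γ : Type*} [DecidableEq γ] (G : Finset α) (hG : G.Nonempty) (n m t : ℕ)
    (X : α → ℕ → ℤ) (hX : ∀ a ∈ G, ∀ b ∈ G, (∀ q < n, X a q = X b q) → a = b)
    (P : Fin m → Set ℕ) (π : Fin m → α → γ)
    (hπ : ∀ j, ∀ a ∈ G, ∀ b ∈ G, π j a = π j b → ∀ q < n, q ∉ P j → X a q = X b q)
    (hP : ∀ q < n, {j : Fin m | q ∈ P j}.ncard ≤ t) :
    (G.card : ℝ) ^ m ≤ (G.card : ℝ) ^ t * ∏ j, ((G.image (π j)).card : ℝ) := by
  classical
  have : Nonempty G := by
    obtain ⟨g, hg⟩ := hG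
    exact ⟨⟨g, hg⟩⟩
  have hw := isPr_unif G
  have h1 := shearer_ent hw (fun (g : G) q => X g q) n m t P hP
  have h2 : Ent (unif G) (tup Set.univ n (fun (g : G) q => X g q)) = Real.log G.card := by
    rw [Ent_unif_inj, Fintype.card_coe]
    intro a b hab
    rw [tup_eq_iff] at hab
    exact Subtype.ext (hX a a.2 b b.2 fun q hq => hab q hq (Set.mem_univ q))
  have h3 : ∀ j : Fin m, Ent (unif G) (tup (P j)ᶜ n (fun (g : G) q => X g q)) ≤
      Real.log ((G.image (π j)).card : ℝ) := by
    intro j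
    have h4 : Ent (unif G) (tup (P j)ᶜ n (fun (g : G) q => X g q)) ≤
        Ent (unif G) (fun g : G => π j g) := by
      refine Ent_mono hw fun a b hab => ?_
      rw [tup_eq_iff]
      exact fun q hq hS => hπ j a a.2 b b.2 hab q hq hS
    refine h4.trans ?_
    refine (Ent_le_log hw (fun g : G => π j g)).trans_eq ?_
    congr 2
    congr 1
    ext c
    simp only [Finset.mem_image, Finset.mem_univ, true_and, Subtype.exists]
    constructor
    · rintro ⟨a, ha, rfl⟩
      exact ⟨a, ha, rfl⟩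
    · rintro ⟨a, ha, rfl⟩
      exact ⟨a, ha, rfl⟩
  rw [h2] at h1
  have h5 : (m : ℝ) * Real.log G.card ≤ t * Real.log G.card +
      ∑ j, Real.log ((G.image (π j)).card : ℝ) :=
    h1.trans (by
      have := Finset.sum_le_sum (fun j (_ : j ∈ (univ : Finset (Fin m))) => h3 j)
      linarith)
  have hpos : (0 : ℝ) < G.card := by
    exact_mod_cast Finset.card_pos.2 hG
  have hpos2 : ∀ j : Fin m, (0 : ℝ) < ((G.image (π j)).card : ℝ) := fun j => by
    exact_mod_cast Finset.card_pos.2 (hG.image _)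
  have h6 : Real.log ((G.card : ℝ) ^ m) ≤
      Real.log ((G.card : ℝ) ^ t * ∏ j, ((G.image (π j)).card : ℝ)) := by
    rw [Real.log_mul (by positivity) (Finset.prod_pos fun j _ => hpos2 j).ne',
      Real.log_pow, Real.log_pow, Real.log_prod (fun j _ => (hpos2 j).ne')]
    exact h5
  exact (Real.log_le_log_iff (by positivity)
    (mul_pos (by positivity) (Finset.prod_pos fun j _ => hpos2 j))).1 h6

/-- a nonzero integer is determined by its sign and its valuations -/
theorem int_ext {a b : ℤ} (ha : a ≠ 0) (hb : b ≠ 0) (hs : a.sign = b.sign)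
    (hv : ∀ q : ℕ, q.Prime → padicValInt q a = padicValInt q b) : a = b := by
  have h1 : a.natAbs = b.natAbs := by
    refine Nat.eq_of_factorization_eq (Int.natAbs_ne_zero.2 ha) (Int.natAbs_ne_zero.2 hb) ?_
    intro q
    by_cases hq : q.Prime
    · rw [Nat.factorization_def _ hq, Nat.factorization_def _ hq]
      exact hv q hq
    · rw [Nat.factorization_eq_zero_of_not_prime _ hq, Nat.factorization_eq_zero_of_not_prime _ hq]
  rw [← Int.sign_mul_natAbs a, ← Int.sign_mul_natAbs b, hs, h1]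

/-- Shearer's inequality for integers: `π j` keeps the sign and the valuations off `P j`; every
prime dividing an element of `G` is in at most `t` of the `P j` -/
theorem shearer_int {γ : Type*} [DecidableEq γ] (G : Finset ℤ) (hG : G.Nonempty)
    (h0 : (0 : ℤ) ∉ G) (m t : ℕ) (P : Fin m → Set ℕ) (π : Fin m → ℤ → γ)
    (hs : ∀ j, ∀ a ∈ G, ∀ b ∈ G, π j a = π j b → a.sign = b.sign)
    (hπ : ∀ j, ∀ a ∈ G, ∀ b ∈ G, π j a = π j b → ∀ q : ℕ, q.Prime → q ∉ P j →
      padicValInt q a = padicValInt q b)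
    (hP : ∀ q : ℕ, q.Prime → (∃ g ∈ G, (q : ℤ) ∣ g) → {j : Fin m | q ∈ P j}.ncard ≤ t) :
    (G.card : ℝ) ^ m ≤ (G.card : ℝ) ^ t * ∏ j, ((G.image (π j)).card : ℝ) := by
  classical
  set X : ℤ → ℕ → ℤ := fun g q => if q = 0 then g.sign else
    if q.Prime then (padicValInt q g : ℤ) else 0 with hXdef
  set n : ℕ := G.sup Int.natAbs + 1 with hn
  have hbig : ∀ q : ℕ, n ≤ q → ∀ g ∈ G, padicValInt q g = 0 := by
    intro q hq g hg
    refine padicValNat.eq_zero_of_not_dvd fun hd => ?_
    have h1 := Nat.le_of_dvd (Int.natAbs_pos.2 fun h => h0 (h ▸ hg)) hd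
    have h2 : g.natAbs ≤ G.sup Int.natAbs := Finset.le_sup hg
    omega
  refine shearer_set G hG n m t X ?_ (fun j => {q | q ∈ P j ∧ q.Prime ∧ ∃ g ∈ G, (q : ℤ) ∣ g}) π
    ?_ ?_
  · intro a ha b hb hab
    refine int_ext (fun h => h0 (h ▸ ha)) (fun h => h0 (h ▸ hb)) ?_ ?_
    · have := hab 0 (by omega)
      simpa [hXdef] using this
    · intro q hq
      by_cases hqn : q < n
      · have h1 := hab q hqn
        simp only [hXdef, hq.ne_zero, if_false, hq, if_true] at h1
        exact_mod_cast h1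
      · rw [hbig q (by omega) a ha, hbig q (by omega) b hb]
  · intro j a ha b hb hab q hq hqP
    simp only [hXdef]
    by_cases hq0 : q = 0
    · simp only [hq0, if_true]
      exact hs j a ha b hb hab
    · simp only [hq0, if_false]
      by_cases hqp : q.Prime
      · simp only [hqp, if_true]
        by_cases hqP2 : q ∈ P j
        · have h1 : ∀ g ∈ G, padicValInt q g = 0 := by
            intro g hg
            refine padicValInt.eq_zero_of_not_dvd fun hd => ?_
            exact hqP ⟨hqP2, hqp, g, hg, hd⟩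
          rw [h1 a ha, h1 b hb]
        · rw [hπ j a ha b hb hab q hqp hqP2]
      · simp only [hqp, if_false]
  · intro q _
    by_cases hq : q.Prime ∧ ∃ g ∈ G, (q : ℤ) ∣ g
    · refine le_trans (Set.ncard_le_ncard ?_ (Set.toFinite _)) (hP q hq.1 hq.2)
      rintro j ⟨hj, -⟩
      exact hj
    · have h1 : {j : Fin m | q ∈ {q | q ∈ P j ∧ q.Prime ∧ ∃ g ∈ G, (q : ℤ) ∣ g}} = ∅ := by
        ext j
        exact ⟨fun h => absurd h.2 hq, fun h => h.elim⟩
      rw [h1]
      simp

/-- Shearer's inequality for the parts free of the primes in `P j` -/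
theorem shearer_pf (G : Finset ℤ) (hG : G.Nonempty) (h0 : (0 : ℤ) ∉ G) (m t : ℕ)
    (P : Fin m → Finset ℕ) (hpr : ∀ j, ∀ q ∈ P j, q.Prime)
    (hP : ∀ q : ℕ, q.Prime → (∃ g ∈ G, (q : ℤ) ∣ g) →
      (univ.filter (fun j : Fin m => q ∈ P j)).card ≤ t) :
    (G.card : ℝ) ^ m ≤ (G.card : ℝ) ^ t * ∏ j, ((G.image (pf (P j))).card : ℝ) := by
  refine shearer_int G hG h0 m t (fun j => (P j : Set ℕ)) (fun j => pf (P j)) ?_ ?_ ?_
  · intro j a ha b hb hab
    rw [← sign_pf (hpr j) (fun h => h0 (h ▸ ha)), ← sign_pf (hpr j) (fun h => h0 (h ▸ hb)), hab]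
  · intro j a ha b hb hab q hq hqP
    have hqP' : q ∉ P j := by simpa using hqP
    have h1 := val_pf (hpr j) (fun h => h0 (h ▸ ha)) hq
    have h2 := val_pf (hpr j) (fun h => h0 (h ▸ hb)) hq
    rw [if_neg hqP'] at h1 h2
    rw [← h1, ← h2, hab]
  · intro q hq hg
    refine le_trans (le_of_eq ?_) (hP q hq hg)
    rw [← Set.ncard_coe_finset]
    congr 1
    ext j
    simp

/-- the form used by helper34 -/
theorem shearer (G : Finset ℤ) (hG : G.Nonempty) (h0 : (0 : ℤ) ∉ G) (n t : ℕ)
    (P : Fin n → Finset ℕ) (hP : ∀ j, ∀ q ∈ P j, q.Prime)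
    (ht : ∀ q : ℕ, q.Prime → (univ.filter (fun j => q ∈ P j)).card ≤ t) :
    G.card ^ n ≤ G.card ^ t * ∏ j, (G.image (pf (P j))).card := by
  have h := shearer_pf G hG h0 n t P hP fun q hq _ => ht q hq
  exact_mod_cast h

end Pool.Agent.Helper99.TR
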