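import Pool.Agent.Helper99.TR.Expand
import Pool.Agent.Helper26.TR.Defs

/-!
# Project TR (MP_120218_co): universal form of the theorem on translates

All but boundedly many rational translates `A + x` of a finite set of integers expand every finite
set `B` of nonzero complex numbers: `|(A + x) B| ≥ c (|A| |B|)^(1 - ε)`.
-/

set_option autoImplicit false

open Finset

namespace Pool.Agent.Helper99.TR

open Pool.Agent.Helper26.TR (TRMixQ)

/-- the complex numbers `a + x`, `a ∈ A` -/
noncomputable def trans (A : Finset ℤ) (x : ℚ) : Finset ℂ :=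
  A.image (fun a : ℤ => (a : ℂ) + (x : ℂ))

/-- all but boundedly many rational translates expand every set -/
def TRU : Prop :=
  ∀ ε : ℝ, 0 < ε → ∃ (m : ℕ) (c : ℝ), 0 < c ∧
    ∀ A : Finset ℤ, 2 ≤ A.card → ∃ E : Finset ℚ, E.card ≤ m ∧
      ∀ x : ℚ, x ∉ E →
        |(x.num : ℝ)| ≤ (A.card : ℝ) ^ (c * Real.log (Real.log A.card)) →
        (x.den : ℝ) ≤ (A.card : ℝ) ^ (c * Real.log (Real.log A.card)) →
        ∀ B : Finset ℂ, B.Nonempty → (0 : ℂ) ∉ B →
          c * ((A.card : ℝ) * (B.card : ℝ)) ^ (1 - ε) ≤ ((prd (trans A x) B).card : ℝ)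

theorem tru_of_mixQ (hT : TRMixQ) : TRU := by
  intro ε hε
  set h : ℕ := ⌈1 / ε⌉₊ with hh
  have hh1 : 1 / ε ≤ (h : ℝ) := Nat.le_ceil _
  have hh0 : 0 < h := by
    rw [hh, Nat.ceil_pos]
    positivity
  have hhr : (0 : ℝ) < h := by exact_mod_cast hh0
  have hhε : 1 / (h : ℝ) ≤ ε := by
    rw [div_le_iff₀ hhr]
    rw [div_le_iff₀ hε] at hh1
    linarith
  obtain ⟨m, c₀, hc₀, hm⟩ := hT h hh0 1 one_pos
  refine ⟨m, min c₀ ((c₀ / 2) ^ (1 / (h : ℝ))), lt_min hc₀ (by positivity), ?_⟩
  intro A hA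
  have hAne : A.Nonempty := Finset.card_pos.1 (by omega)
  obtain ⟨E, hE, hx⟩ := hm A hAne
  refine ⟨E, hE, ?_⟩
  intro x hxE hnum hden B hB h0
  have hA2 : (2 : ℝ) ≤ A.card := by exact_mod_cast hA
  -- the height condition with `c₀`
  have hll : 0 ≤ Real.log (Real.log A.card) := by
    by_contra hneg
    push Not at hneg
    have h1 : (1 : ℝ) ≤ (x.den : ℝ) := by exact_mod_cast x.den_pos
    have h2 : (A.card : ℝ) ^ (min c₀ ((c₀ / 2) ^ (1 / (h : ℝ))) *
        Real.log (Real.log A.card)) < 1 :=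
      Real.rpow_lt_one_of_one_lt_of_neg (by linarith)
        (mul_neg_of_pos_of_neg (lt_min hc₀ (by positivity)) hneg)
    linarith
  have hexp : (A.card : ℝ) ^ (min c₀ ((c₀ / 2) ^ (1 / (h : ℝ))) *
      Real.log (Real.log A.card)) ≤ (A.card : ℝ) ^ (c₀ * Real.log (Real.log A.card)) :=
    Real.rpow_le_rpow_of_exponent_le (by linarith)
      (mul_le_mul_of_nonneg_right (min_le_left _ _) hll)
  have h1 := hx (fun _ => x) (fun _ => ⟨hnum.trans hexp, hden.trans hexp⟩) (by
    have : (univ.filter (fun _ : Fin h => x ∈ E)) = ∅ := by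
      ext i
      simp [hxE]
    rw [this]
    simp)
  have h2 : (((Fintype.piFinset (fun _ : Fin h => A.image (fun a : ℤ => (a : ℚ) + x))).image
      (fun f : Fin h → ℚ => ∏ i, f i)).card : ℝ) ≤ ((hProd h (trans A x)).card : ℝ) := by
    have hinj : Function.Injective (fun q : ℚ => (q : ℂ)) := Rat.cast_injective
    have h3 : ((Fintype.piFinset (fun _ : Fin h => A.image (fun a : ℤ => (a : ℚ) + x))).image
        (fun f : Fin h → ℚ => ∏ i, f i)).image (fun q : ℚ => (q : ℂ)) ⊆
        hProd h (trans A x) := by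
      intro y hy
      rw [Finset.mem_image] at hy
      obtain ⟨q, hq, rfl⟩ := hy
      rw [Finset.mem_image] at hq
      obtain ⟨f, hf, rfl⟩ := hq
      rw [Fintype.mem_piFinset] at hf
      rw [mem_hProd]
      refine ⟨fun i => ((f i : ℚ) : ℂ), fun i => ?_, ?_⟩
      · obtain ⟨a, ha, hfa⟩ := Finset.mem_image.1 (hf i)
        unfold trans
        rw [Finset.mem_image]
        refine ⟨a, ha, ?_⟩
        change (a : ℂ) + (x : ℂ) = ((f i : ℚ) : ℂ)
        rw [← hfa]
        push_cast
        rfl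
      · push_cast
        rfl
    have h4 := Finset.card_le_card h3
    rw [Finset.card_image_of_injective _ hinj] at h4
    exact_mod_cast h4
  have h3 : c₀ * (A.card : ℝ) ^ ((h : ℝ) - 1) ≤ ((hProd h (trans A x)).card : ℝ) := h1.trans h2
  have h4 : ∃ s ∈ trans A x, s ≠ 0 := by
    by_contra hcon
    push Not at hcon
    have h5 : trans A x ⊆ {0} := fun s hs => by
      rw [Finset.mem_singleton]
      exact hcon s hs
    have h6 := Finset.card_le_card h5
    have h7 : (trans A x).card = A.card := by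
      unfold trans
      refine Finset.card_image_of_injective _ fun a b hab => ?_
      have h8 : (a : ℂ) = (b : ℂ) := by simpa using hab
      exact_mod_cast h8
    rw [h7, Finset.card_singleton] at h6
    omega
  have h5 := expand h hh0 (trans A x) h4 c₀ A.card ε hc₀ (by linarith) hhε h3 B h0 hB
  refine le_trans ?_ h5
  refine mul_le_mul_of_nonneg_right (min_le_right _ _) ?_
  positivity

end Pool.Agent.Helper99.TR
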