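import Pool.Agent.Helper99.TR.ZerA

/-!
# Project TR (MP_120218_co): a maximal coprime family of exceptional polynomials and its zeros
-/

set_option autoImplicit false

open Finset Polynomial

namespace Pool.Agent.Helper99.TR

open Pool.Agent.Helper26.TR Pool.Agent.Helper88.NZ

theorem exists_common_root {F G : ℤ[X]} (h : res F G = 0) :
    ∃ z : ℂ, aeval z F = 0 ∧ aeval z G = 0 := by
  have hinj : Function.Injective (Int.castRingHom ℂ) := by
    intro a b h
    simpa using h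
  have h1 : resultant (F.map (Int.castRingHom ℂ)) (G.map (Int.castRingHom ℂ)) = 0 := by
    rw [natDegree_map_eq_of_injective hinj, natDegree_map_eq_of_injective hinj,
      resultant_map_map]
    unfold res at h
    rw [h, map_zero]
  rw [resultant_eq_zero_iff] at h1
  have h2 := h1.2
  rw [isCoprime_iff_aeval_ne_zero_of_isAlgClosed (k := ℂ) ℂ] at h2
  push Not at h2
  obtain ⟨z, hz1, hz2⟩ := h2
  refine ⟨z, ?_, ?_⟩
  · rw [aeval_def, eval₂_eq_eval_map]
    simpa [aeval_def] using hz1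
  · rw [aeval_def, eval₂_eq_eval_map]
    simpa [aeval_def] using hz2

/-- the complex zeros of an integer polynomial -/
noncomputable def zeros (F : ℤ[X]) : Finset ℂ := by
  classical
  exact (F.map (Int.castRingHom ℂ)).roots.toFinset

theorem card_zeros (F : ℤ[X]) : (zeros F).card ≤ F.natDegree := by
  classical
  unfold zeros
  refine (Multiset.toFinset_card_le _).trans ((card_roots' _).trans ?_)
  exact natDegree_map_le

theorem mem_zeros {F : ℤ[X]} (hF : F ≠ 0) {z : ℂ} (hz : aeval z F = 0) : z ∈ zeros F := by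
  classical
  unfold zeros
  rw [Multiset.mem_toFinset, mem_roots']
  refine ⟨?_, ?_⟩
  · rw [Ne, Polynomial.map_eq_zero_iff]
    · exact hF
    · intro a b h
      simpa using h
  · rw [IsRoot.def, eval_map]
    exact hz

theorem exists_zero {F : ℤ[X]} (hF : 1 ≤ F.natDegree) : ∃ z : ℂ, aeval z F = 0 := by
  have hinj : Function.Injective (Int.castRingHom ℂ) := by
    intro a b h
    simpa using h
  have h1 : (F.map (Int.castRingHom ℂ)).degree ≠ 0 := by
    rw [degree_map_eq_of_injective hinj]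
    intro h
    have h2 : F.natDegree = 0 := natDegree_eq_of_degree_eq_some (by rw [h]; rfl)
    omega
  obtain ⟨z, hz⟩ := IsAlgClosed.exists_root _ h1
  refine ⟨z, ?_⟩
  rw [IsRoot.def, eval_map] at hz
  exact hz

/-- exceptional polynomials for one density -/
def Ex (A : Finset ℤ) (d : ℕ) (H : ℤ) (θ κ C W : ℝ) (F : ℤ[X]) : Prop :=
  Gd d H F ∧ RelP A θ κ C W F F

/-- finite families of pairwise coprime exceptional polynomials -/
def Fam (A : Finset ℤ) (d : ℕ) (H : ℤ) (θ κ C W : ℝ) (J : Finset ℤ[X]) : Prop :=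
  (∀ G ∈ J, Ex A d H θ κ C W G) ∧ ∀ G ∈ J, ∀ G' ∈ J, G ≠ G' → res G G' ≠ 0

theorem log_nn {d : ℕ} {H : ℤ} (hH : 1 ≤ H) :
    0 ≤ Real.log (((2 * d).factorial : ℝ) * (H : ℝ) ^ (2 * d)) := by
  apply Real.log_nonneg
  have hHr : (1 : ℝ) ≤ H := by exact_mod_cast hH
  have hfac : (1 : ℝ) ≤ ((2 * d).factorial : ℝ) := by
    exact_mod_cast Nat.one_le_iff_ne_zero.2 (Nat.factorial_ne_zero _)
  calc (1 : ℝ) = 1 * 1 := by norm_num
    _ ≤ _ := mul_le_mul hfac (one_le_pow₀ hHr) (by norm_num) (by positivity)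

theorem card_Fam {A : Finset ℤ} {d : ℕ} (hd : 1 ≤ d) (hA : 2 * d ≤ A.card) {κ : ℝ}
    (hκ0 : 0 < κ) (hκ1 : κ ≤ 1) {C : ℝ} {H : ℤ} (hH : 1 ≤ H) {W S : ℝ}
    (hS : Real.log (((2 * d).factorial : ℝ) * (H : ℝ) ^ (2 * d)) ≤ S) {m : ℕ}
    (hm : 2 + 2 * (d : ℝ) ^ 2 / κ * C ≤ m) (hW0 : 0 < W)
    (hW : (d : ℝ) * (m + 1) * (((m : ℝ) + 2) ^ 2 * S) ≤ W) (J : Finset ℤ[X])
    (hJ : Fam A d H (1 / (2 * (d : ℝ) ^ 3)) κ C W J) : J.card ≤ m := by
  classical
  by_contra hlt
  push Not at hlt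
  obtain ⟨J', hJ'J, hJ'c⟩ := exists_subset_card_eq (s := J) (n := m + 1) (by omega)
  have hne : J'.Nonempty := card_pos.1 (by omega)
  obtain ⟨F, hF, hmin⟩ := exists_min_image J' (fun G => W0 κ (fz A G)) hne
  obtain ⟨hFg, hrel, hWF⟩ := hJ.1 F (hJ'J hF)
  set K : Finset ℤ[X] := J'.erase F with hK
  have hKJ : K ⊆ J' := erase_subset _ _
  have hKc : K.card = m := by
    rw [hK, card_erase_of_mem hF, hJ'c]
    rfl
  have hins : ∀ G ∈ insert F K, G ∈ J := by
    intro G hG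
    rcases mem_insert.1 hG with h | h
    · rw [h]; exact hJ'J hF
    · exact hJ'J (hKJ h)
  have key := one_set hd hA hκ0 hκ1 K F hH (fun G hG => (hJ.1 G (hJ'J (hKJ hG))).1) hFg
    (notMem_erase _ _) (fun G hG G' hG' h => hJ.2 G (hins G hG) G' (hins G' hG') h)
    (V := C * W0 κ (fz A F)) hrel
  have hWF0 : 0 < W0 κ (fz A F) := hW0.trans_le hWF
  have hlow : (m : ℝ) * W0 κ (fz A F) ≤ ∑ G ∈ K, W0 κ (fz A G) := by
    calc (m : ℝ) * W0 κ (fz A F) = ∑ _G ∈ K, W0 κ (fz A F) := by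
          rw [sum_const, nsmul_eq_mul, hKc]
      _ ≤ ∑ G ∈ K, W0 κ (fz A G) := sum_le_sum fun G hG => hmin G (hKJ hG)
  have hS0 : 0 ≤ S := (log_nn hH).trans hS
  have herr : (d : ℝ) * K.card * (((K.card : ℝ) + 1) ^ 2 *
      Real.log (((2 * d).factorial : ℝ) * (H : ℝ) ^ (2 * d))) ≤ W0 κ (fz A F) := by
    refine le_trans ?_ (hW.trans hWF)
    rw [hKc]
    apply mul_le_mul
    · exact mul_le_mul_of_nonneg_left (by linarith) (by positivity)
    · calc ((m : ℝ) + 1) ^ 2 * Real.log (((2 * d).factorial : ℝ) * (H : ℝ) ^ (2 * d))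
          ≤ ((m : ℝ) + 1) ^ 2 * S := mul_le_mul_of_nonneg_left hS (by positivity)
        _ ≤ ((m : ℝ) + 2) ^ 2 * S := by
          apply mul_le_mul_of_nonneg_right _ hS0
          apply pow_le_pow_left₀ (by positivity)
          linarith
    · exact mul_nonneg (by positivity) (log_nn hH)
    · positivity
  have h1 : (m : ℝ) * W0 κ (fz A F) ≤
      (2 * (d : ℝ) ^ 2 / κ * C + 1) * W0 κ (fz A F) := by
    refine hlow.trans (key.trans ?_)
    have : 2 * (d : ℝ) ^ 2 / κ * (C * W0 κ (fz A F)) + W0 κ (fz A F) =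
        (2 * (d : ℝ) ^ 2 / κ * C + 1) * W0 κ (fz A F) := by ring
    linarith
  have h2 := le_of_mul_le_mul_right h1 hWF0
  linarith

/-- a boundedly large set of complex numbers containing a zero of each exceptional polynomial -/
theorem exists_zeros {A : Finset ℤ} {d : ℕ} (hd : 1 ≤ d) (hA : 2 * d ≤ A.card) {κ : ℝ}
    (hκ0 : 0 < κ) (hκ1 : κ ≤ 1) {C : ℝ} {H : ℤ} (hH : 1 ≤ H) {W S : ℝ}
    (hS : Real.log (((2 * d).factorial : ℝ) * (H : ℝ) ^ (2 * d)) ≤ S) {m : ℕ}
    (hm : 2 + 2 * (d : ℝ) ^ 2 / κ * C ≤ m) (hW0 : 0 < W)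
    (hW : (d : ℝ) * (m + 1) * (((m : ℝ) + 2) ^ 2 * S) ≤ W) :
    ∃ Z : Finset ℂ, Z.card ≤ m * d ∧ ∀ F, Gd d H F →
      RelP A (1 / (2 * (d : ℝ) ^ 3)) κ C W F F → ∃ z ∈ Z, aeval z F = 0 := by
  classical
  have hbd := fun J => card_Fam (A := A) hd hA hκ0 hκ1 hH hS hm hW0 hW J
  set P : ℕ → Prop := fun n => ∃ J, Fam A d H (1 / (2 * (d : ℝ) ^ 3)) κ C W J ∧ J.card = n
    with hP
  have hP0 : P 0 := ⟨∅, ⟨by simp, by simp⟩, rfl⟩
  have hmax : P (Nat.findGreatest P m) := Nat.findGreatest_spec (P := P) (Nat.zero_le _) hP0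
  obtain ⟨J, hJ, hJc⟩ := hmax
  refine ⟨J.biUnion zeros, ?_, ?_⟩
  · refine card_biUnion_le.trans ?_
    calc ∑ G ∈ J, (zeros G).card ≤ ∑ _G ∈ J, d :=
          sum_le_sum fun G hG => (card_zeros G).trans (hJ.1 G hG).1.2.2.1
      _ = J.card * d := by rw [sum_const, smul_eq_mul]
      _ ≤ m * d := Nat.mul_le_mul_right _ (hbd J hJ)
  · intro F hFg hrel
    have hmem : ∀ G ∈ J, ∀ z : ℂ, aeval z G = 0 → z ∈ J.biUnion zeros := fun G hG z hz =>
      mem_biUnion.2 ⟨G, hG, mem_zeros (by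
        intro h0
        have := (hJ.1 G hG).1.2.1
        rw [h0, natDegree_zero] at this
        omega) hz⟩
    by_cases hFJ : F ∈ J
    · obtain ⟨z, hz⟩ := exists_zero hFg.2.1
      exact ⟨z, hmem F hFJ z hz, hz⟩
    by_cases hall : ∀ G ∈ J, res F G ≠ 0 ∧ res G F ≠ 0
    · exfalso
      have hJF : Fam A d H (1 / (2 * (d : ℝ) ^ 3)) κ C W (insert F J) := by
        refine ⟨?_, ?_⟩
        · intro G hG
          rcases mem_insert.1 hG with h | h
          · rw [h]; exact ⟨hFg, hrel⟩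
          · exact hJ.1 G h
        · intro G hG G' hG' hne
          rcases mem_insert.1 hG with h | h
          · rcases mem_insert.1 hG' with h' | h'
            · exact absurd (h.trans h'.symm) hne
            · rw [h]; exact (hall G' h').1
          · rcases mem_insert.1 hG' with h' | h'
            · rw [h']; exact (hall G h).2
            · exact hJ.2 G h G' h' hne
      have h1 := hbd _ hJF
      have h2 : (insert F J).card = J.card + 1 := card_insert_of_notMem hFJ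
      have h3 : P (J.card + 1) := ⟨insert F J, hJF, h2⟩
      have h4 := Nat.le_findGreatest (P := P) (by omega : J.card + 1 ≤ m) h3
      omega
    · push Not at hall
      obtain ⟨G, hG, hres⟩ := hall
      by_cases h0 : res F G = 0
      · obtain ⟨z, hz1, hz2⟩ := exists_common_root h0
        exact ⟨z, hmem G hG z hz2, hz1⟩
      · obtain ⟨z, hz1, hz2⟩ := exists_common_root (hres h0)
        exact ⟨z, hmem G hG z hz1, hz2⟩

end Pool.Agent.Helper99.TR
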